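import Pool.Agent.H40.ISH.Stmts

set_option autoImplicit false

namespace Pool.ISH

open MeasureTheory Filter Topology
open scoped Classical Pointwise

namespace BPIaux

/-- a boundary bond on a line of the cube joining two sites of different kind, ordered version -/
lemma step1 (P : Set Site) (z : Site) (l : ℕ) (i : Fin 3) : ∀ (n : ℕ) (w w' : Site),
    w ∈ cube z l → w' ∈ cube z l → w' i = w i + n → (∀ j, j ≠ i → w' j = w j) →
    ¬ (w ∈ P ↔ w' ∈ P) → ∃ b ∈ BC z l, b ∈ bd P ∧ b.2 = i ∧ ∀ j, j ≠ i → b.1 j = w j := by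
  intro n
  induction n with
  | zero =>
    intro w w' _ _ h1 h2 h3
    exfalso
    apply h3
    have : w' = w := by
      funext j
      by_cases hj : j = i
      · subst hj
        simpa using h1
      · exact h2 j hj
    rw [this]
  | succ n ih =>
    intro w w' hw hw' h1 h2 h3
    have hm : w + ev i ∈ cube z l := by
      rw [mem_cube] at hw hw' ⊢
      intro j
      by_cases hj : j = i
      · subst hj
        simp only [Pi.add_apply, ev_same]
        have a := hw j
        have b := hw' j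
        rw [h1] at b
        push_cast at b
        constructor <;> omega
      · simp only [Pi.add_apply, ev_ne hj, add_zero]
        exact hw j
    by_cases hc : (w ∈ P ↔ w + ev i ∈ P)
    · obtain ⟨b, hb1, hb2, hb3, hb4⟩ := ih (w + ev i) w' hm hw' (by
        simp only [Pi.add_apply, ev_same]
        rw [h1]
        push_cast
        ring) (by
        intro j hj
        simp only [Pi.add_apply, ev_ne hj, add_zero]
        exact h2 j hj) (by rwa [← hc])
      refine ⟨b, hb1, hb2, hb3, fun j hj => ?_⟩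
      rw [hb4 j hj]
      simp [ev_ne hj]
    · exact ⟨(w, i), mem_BC.mpr ⟨hw, hm⟩, hc, rfl, fun j _ => rfl⟩

lemma step (P : Set Site) (z : Site) (l : ℕ) (i : Fin 3) (w w' : Site)
    (hw : w ∈ cube z l) (hw' : w' ∈ cube z l) (h2 : ∀ j, j ≠ i → w' j = w j)
    (h3 : ¬ (w ∈ P ↔ w' ∈ P)) :
    ∃ b ∈ BC z l, b ∈ bd P ∧ b.2 = i ∧ ∀ j, j ≠ i → b.1 j = w j := by
  rcases le_total (w i) (w' i) with h | h
  · exact step1 P z l i (w' i - w i).toNat w w' hw hw' (by
      rw [Int.toNat_of_nonneg (by omega)]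
      ring) h2 h3
  · obtain ⟨b, hb1, hb2, hb3, hb4⟩ := step1 P z l i (w i - w' i).toNat w' w hw' hw (by
      rw [Int.toNat_of_nonneg (by omega)]
      ring) (fun j hj => (h2 j hj).symm) (fun hh => h3 hh.symm)
    exact ⟨b, hb1, hb2, hb3, fun j hj => (hb4 j hj).trans (h2 j hj)⟩

/-- the relation between a pair of sites and a boundary bond -/
def Rl (x y : Site) (b : Bond) : Prop :=
  (b.2 = 0 ∧ x 1 = b.1 1 ∧ x 2 = b.1 2) ∨ (b.2 = 1 ∧ y 0 = b.1 0 ∧ x 2 = b.1 2) ∨
    (b.2 = 2 ∧ y 0 = b.1 0 ∧ y 1 = b.1 1)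

lemma exb (P : Set Site) (z : Site) (l : ℕ) (x y : Site) (hx : x ∈ cube z l) (hy : y ∈ cube z l)
    (h : ¬ (x ∈ P ↔ y ∈ P)) : ∃ b ∈ (BC z l).filter (fun b => b ∈ bd P), Rl x y b := by
  have hx' := mem_cube.mp hx
  have hy' := mem_cube.mp hy
  set w1 : Site := ![y 0, x 1, x 2] with hw1
  set w2 : Site := ![y 0, y 1, x 2] with hw2
  have m1 : w1 ∈ cube z l := by
    rw [mem_cube]
    intro i
    fin_cases i
    · exact hy' 0
    · exact hx' 1
    · exact hx' 2
  have m2 : w2 ∈ cube z l := by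
    rw [mem_cube]
    intro i
    fin_cases i
    · exact hy' 0
    · exact hy' 1
    · exact hx' 2
  by_cases c1 : (x ∈ P ↔ w1 ∈ P)
  · by_cases c2 : (w1 ∈ P ↔ w2 ∈ P)
    · have c3 : ¬ (w2 ∈ P ↔ y ∈ P) := fun c3 => h (c1.trans (c2.trans c3))
      obtain ⟨b, hb1, hb2, hb3, hb4⟩ := step P z l 2 w2 y m2 hy (by
        intro j hj
        fin_cases j
        · rfl
        · rfl
        · exact absurd rfl hj) c3
      exact ⟨b, Finset.mem_filter.mpr ⟨hb1, hb2⟩, Or.inr (Or.inr ⟨hb3,
        (hb4 0 (by decide)).symm, (hb4 1 (by decide)).symm⟩)⟩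
    · obtain ⟨b, hb1, hb2, hb3, hb4⟩ := step P z l 1 w1 w2 m1 m2 (by
        intro j hj
        fin_cases j
        · rfl
        · exact absurd rfl hj
        · rfl) c2
      exact ⟨b, Finset.mem_filter.mpr ⟨hb1, hb2⟩, Or.inr (Or.inl ⟨hb3,
        (hb4 0 (by decide)).symm, (hb4 2 (by decide)).symm⟩)⟩
  · obtain ⟨b, hb1, hb2, hb3, hb4⟩ := step P z l 0 x w1 hx m1 (by
        intro j hj
        fin_cases j
        · exact absurd rfl hj
        · rfl
        · rfl) c1
    exact ⟨b, Finset.mem_filter.mpr ⟨hb1, hb2⟩, Or.inl ⟨hb3,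
        (hb4 1 (by decide)).symm, (hb4 2 (by decide)).symm⟩⟩

/-- the range of a coordinate -/
noncomputable def I (z : Site) (l : ℕ) (j : Fin 3) : Finset ℤ := Finset.Ico (z j) (z j + l)

lemma cardI (z : Site) (l : ℕ) (j : Fin 3) : (I z l j).card = l := by
  simp [I]

lemma memI {z x : Site} {l : ℕ} (h : x ∈ cube z l) (j : Fin 3) : x j ∈ I z l j :=
  Finset.mem_Ico.mpr (mem_cube.mp h j)

lemma card4 (z : Site) (l : ℕ) (a b c d : Fin 3) :
    ((I z l a) ×ˢ (I z l b) ×ˢ (I z l c) ×ˢ (I z l d)).card = l ^ 4 := by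
  simp only [Finset.card_product, cardI]
  ring

lemma fib (z : Site) (l : ℕ) (b : Bond) (s : Finset (Site × Site))
    (h : ∀ p ∈ s, p.1 ∈ cube z l ∧ p.2 ∈ cube z l ∧ Rl p.1 p.2 b) : s.card ≤ l ^ 4 := by
  obtain ⟨u, i⟩ := b
  fin_cases i
  · rw [← card4 z l 0 0 1 2]
    refine Finset.card_le_card_of_injOn (fun p => (p.1 0, p.2 0, p.2 1, p.2 2)) ?_ ?_
    · intro p hp
      obtain ⟨h1, h2, -⟩ := h p hp
      simp only [Finset.coe_product, Set.mem_prod, Finset.mem_coe]
      exact ⟨memI h1 0, memI h2 0, memI h2 1, memI h2 2⟩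
    · rintro ⟨x, y⟩ hp ⟨x', y'⟩ hq he
      obtain ⟨-, -, h3⟩ := h _ hp
      obtain ⟨-, -, h4⟩ := h _ hq
      simp only [Prod.mk.injEq] at he
      simp [Rl] at h3 h4
      obtain ⟨e1, e2, e3, e4⟩ := he
      refine Prod.ext ?_ ?_
      · funext j
        fin_cases j
        · exact e1
        · exact h3.1.trans h4.1.symm
        · exact h3.2.trans h4.2.symm
      · funext j
        fin_cases j
        · exact e2
        · exact e3
        · exact e4
  · rw [← card4 z l 0 1 1 2]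
    refine Finset.card_le_card_of_injOn (fun p => (p.1 0, p.1 1, p.2 1, p.2 2)) ?_ ?_
    · intro p hp
      obtain ⟨h1, h2, -⟩ := h p hp
      simp only [Finset.coe_product, Set.mem_prod, Finset.mem_coe]
      exact ⟨memI h1 0, memI h1 1, memI h2 1, memI h2 2⟩
    · rintro ⟨x, y⟩ hp ⟨x', y'⟩ hq he
      obtain ⟨-, -, h3⟩ := h _ hp
      obtain ⟨-, -, h4⟩ := h _ hq
      simp only [Prod.mk.injEq] at he
      simp [Rl] at h3 h4
      obtain ⟨e1, e2, e3, e4⟩ := he
      refine Prod.ext ?_ ?_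
      · funext j
        fin_cases j
        · exact e1
        · exact e2
        · exact h3.2.trans h4.2.symm
      · funext j
        fin_cases j
        · exact h3.1.trans h4.1.symm
        · exact e3
        · exact e4
  · rw [← card4 z l 0 1 2 2]
    refine Finset.card_le_card_of_injOn (fun p => (p.1 0, p.1 1, p.1 2, p.2 2)) ?_ ?_
    · intro p hp
      obtain ⟨h1, h2, -⟩ := h p hp
      simp only [Finset.coe_product, Set.mem_prod, Finset.mem_coe]
      exact ⟨memI h1 0, memI h1 1, memI h1 2, memI h2 2⟩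
    · rintro ⟨x, y⟩ hp ⟨x', y'⟩ hq he
      obtain ⟨-, -, h3⟩ := h _ hp
      obtain ⟨-, -, h4⟩ := h _ hq
      simp only [Prod.mk.injEq] at he
      simp [Rl] at h3 h4
      obtain ⟨e1, e2, e3, e4⟩ := he
      refine Prod.ext ?_ ?_
      · funext j
        fin_cases j
        · exact e1
        · exact e2
        · exact e3
      · funext j
        fin_cases j
        · exact h3.1.trans h4.1.symm
        · exact h3.2.trans h4.2.symm
        · exact e4

end BPIaux

open BPIaux in
theorem bpi : BPIStmt := by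
  intro P z l
  set A := (cube z l).filter (fun x => x ∈ P) with hA
  set B := (cube z l).filter (fun x => x ∉ P) with hB
  set S := (A ×ˢ B) ∪ (B ×ˢ A) with hS
  have hd : Disjoint (A ×ˢ B) (B ×ˢ A) := by
    rw [Finset.disjoint_left]
    intro p hp hq
    rw [Finset.mem_product] at hp hq
    exact (Finset.mem_filter.mp hq.1).2 (Finset.mem_filter.mp hp.1).2
  have hc : S.card = 2 * A.card * B.card := by
    rw [hS, Finset.card_union_of_disjoint hd, Finset.card_product, Finset.card_product]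
    ring
  have hmem : ∀ p ∈ S, p.1 ∈ cube z l ∧ p.2 ∈ cube z l ∧ ¬ (p.1 ∈ P ↔ p.2 ∈ P) := by
    intro p hp
    rcases Finset.mem_union.mp hp with hp | hp <;> rw [Finset.mem_product] at hp
    · have h1 := Finset.mem_filter.mp hp.1
      have h2 := Finset.mem_filter.mp hp.2
      exact ⟨h1.1, h2.1, fun hh => h2.2 (hh.mp h1.2)⟩
    · have h1 := Finset.mem_filter.mp hp.1
      have h2 := Finset.mem_filter.mp hp.2
      exact ⟨h1.1, h2.1, fun hh => h1.2 (hh.mpr h2.2)⟩
  have hex : ∀ p : Site × Site, ∃ b : Bond, p ∈ S →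
      b ∈ (BC z l).filter (fun b => b ∈ bd P) ∧ Rl p.1 p.2 b := by
    intro p
    by_cases hp : p ∈ S
    · obtain ⟨h1, h2, h3⟩ := hmem p hp
      obtain ⟨b, hb, hr⟩ := exb P z l p.1 p.2 h1 h2 h3
      exact ⟨b, fun _ => ⟨hb, hr⟩⟩
    · exact ⟨(0, 0), fun h => absurd h hp⟩
  choose Φ hΦ using hex
  rw [← hc]
  refine Finset.card_le_mul_card_image_of_maps_to (f := Φ) (fun p hp => (hΦ p hp).1) _ ?_
  intro b _
  refine fib z l b _ ?_
  intro p hp
  obtain ⟨h1, h2⟩ := Finset.mem_filter.mp hp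
  obtain ⟨h3, h4, -⟩ := hmem p h1
  refine ⟨h3, h4, ?_⟩
  rw [← h2]
  exact (hΦ p h1).2

end Pool.ISH
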