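import Pool.Agent.H40.ISH.Stmts

set_option autoImplicit false

namespace Pool.ISH

open MeasureTheory Filter Topology
open scoped Classical Pointwise

namespace CNTaux

/-- the sets to be counted -/
noncomputable def Fm (U T : Finset Bond) (s : ℕ) : Finset (Finset Bond) :=
  (U.powerset).filter (fun G : Finset Bond => T ⊆ G ∧ G.card = s ∧
    ∀ b ∈ G, ∃ c ∈ T, Rch (G : Set Bond) c b)

/-- the new roots -/
noncomputable def T' (T : Finset Bond) (t : Bond) (A : Finset Bond) : Finset Bond :=
  (T.erase t) ∪ A

lemma reach {G T : Finset Bond} {t : Bond} (_ht : t ∈ T) {c b : Bond} (hc : c ∈ T)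
    (h : Rch (G : Set Bond) c b) : b ≠ t →
    ∃ c' ∈ T' T t ((G ∩ nbh t).erase t), Rch ((G.erase t : Finset Bond) : Set Bond) c' b := by
  induction h with
  | refl =>
    intro hb
    exact ⟨c, Finset.mem_union_left _ (Finset.mem_erase.mpr ⟨hb, hc⟩), Relation.ReflTransGen.refl⟩
  | @tail m b _ hmb ih =>
    intro hb
    by_cases hm : m = t
    · subst hm
      refine ⟨b, Finset.mem_union_right _ ?_, Relation.ReflTransGen.refl⟩
      exact Finset.mem_erase.mpr ⟨hb, Finset.mem_inter.mpr ⟨hmb.2, hmb.1.mem_nbh⟩⟩
    · obtain ⟨c', h1, h2⟩ := ih hm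
      refine ⟨c', h1, h2.tail ⟨hmb.1, ?_⟩⟩
      exact Finset.mem_coe.mpr (Finset.mem_erase.mpr ⟨hb, hmb.2⟩)

lemma main (U : Finset Bond) : ∀ (s : ℕ) (T : Finset Bond), (Fm U T s).card ≤ 2 ^ (81 * s) := by
  intro s
  induction s with
  | zero =>
    intro T
    have : Fm U T 0 ⊆ {∅} := by
      intro G hG
      simp only [Fm, Finset.mem_filter] at hG
      rw [Finset.mem_singleton]
      exact Finset.card_eq_zero.mp hG.2.2.1
    calc (Fm U T 0).card ≤ ({∅} : Finset (Finset Bond)).card := Finset.card_le_card this
      _ = 2 ^ (81 * 0) := by simp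
  | succ s ih =>
    intro T
    rcases T.eq_empty_or_nonempty with hT | ⟨t, ht⟩
    · have : Fm U T (s + 1) = ∅ := by
        rw [Finset.eq_empty_iff_forall_notMem]
        intro G hG
        simp only [Fm, Finset.mem_filter] at hG
        obtain ⟨b, hb⟩ : G.Nonempty := by
          rw [← Finset.card_pos, hG.2.2.1]
          omega
        obtain ⟨c, hc, -⟩ := hG.2.2.2 b hb
        rw [hT] at hc
        exact absurd hc (Finset.notMem_empty c)
      rw [this]
      simp
    · have hsub : Fm U T (s + 1) ⊆ (nbh t).powerset.biUnion
          (fun A => (Fm U (T' T t A) s).image (fun G => insert t G)) := by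
        intro G hG
        simp only [Fm, Finset.mem_filter] at hG
        obtain ⟨h1, h2, h3, h4⟩ := hG
        have htG : t ∈ G := h2 ht
        rw [Finset.mem_biUnion]
        refine ⟨(G ∩ nbh t).erase t, ?_, ?_⟩
        · rw [Finset.mem_powerset]
          exact (Finset.erase_subset _ _).trans Finset.inter_subset_right
        · rw [Finset.mem_image]
          refine ⟨G.erase t, ?_, Finset.insert_erase htG⟩
          simp only [Fm, Finset.mem_filter]
          refine ⟨?_, ?_, ?_, ?_⟩
          · rw [Finset.mem_powerset] at h1 ⊢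
            exact (Finset.erase_subset _ _).trans h1
          · intro b hb
            rcases Finset.mem_union.mp hb with hb | hb
            · have := Finset.mem_erase.mp hb
              exact Finset.mem_erase.mpr ⟨this.1, h2 this.2⟩
            · have := Finset.mem_erase.mp hb
              exact Finset.mem_erase.mpr ⟨this.1, (Finset.mem_inter.mp this.2).1⟩
          · rw [Finset.card_erase_of_mem htG]
            omega
          · intro b hb
            obtain ⟨hb1, hb2⟩ := Finset.mem_erase.mp hb
            obtain ⟨c, hc, hr⟩ := h4 b hb2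
            exact reach ht hc hr hb1
      calc (Fm U T (s + 1)).card ≤ _ := Finset.card_le_card hsub
        _ ≤ ∑ A ∈ (nbh t).powerset, ((Fm U (T' T t A) s).image (fun G => insert t G)).card :=
            Finset.card_biUnion_le
        _ ≤ ∑ A ∈ (nbh t).powerset, 2 ^ (81 * s) :=
            Finset.sum_le_sum fun A _ => Finset.card_image_le.trans (ih _)
        _ = 2 ^ (81 * (s + 1)) := by
            rw [Finset.sum_const, Finset.card_powerset, card_nbh, smul_eq_mul, ← pow_add]
            congr 1
            ring

end CNTaux

open CNTaux in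
theorem cntt : CNTStmt := by
  intro U T s
  exact main U s T

end Pool.ISH
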