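import Pool.Agent.H40.ISH.Stmts

set_option autoImplicit false

namespace Pool.ISH

open MeasureTheory Filter Topology
open scoped Classical Pointwise

theorem lwh : LWHStmt := by
  intro D
  set f : Site → Site := fun x => Function.update x 0 0 with hf
  have h1 : D.card = ∑ y ∈ D.image f, (D.filter (fun x => f x = y)).card :=
    Finset.card_eq_sum_card_image f D
  have h2 : (D.card) ^ 2 ≤ (D.image f).card * ∑ y ∈ D.image f,
      ((D.filter (fun x => f x = y)).card) ^ 2 := by
    conv_lhs => rw [h1]
    exact sq_sum_le_card_mul_sum_sq
  set Pr : Finset (Site × Site) := (D ×ˢ D).filter (fun p => f p.1 = f p.2) with hPr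
  have h3 : ∑ y ∈ D.image f, ((D.filter (fun x => f x = y)).card) ^ 2 = Pr.card := by
    rw [Finset.card_eq_sum_card_fiberwise (f := fun p : Site × Site => f p.1) (t := D.image f)]
    · refine Finset.sum_congr rfl fun y _ => ?_
      rw [sq, ← Finset.card_product]
      congr 1
      ext p
      simp only [Finset.mem_product, Finset.mem_filter, hPr]
      constructor
      · rintro ⟨⟨a, b⟩, c, d⟩
        exact ⟨⟨⟨a, c⟩, b.trans d.symm⟩, b⟩
      · rintro ⟨⟨⟨a, c⟩, b⟩, d⟩
        exact ⟨⟨a, d⟩, c, b.symm.trans d⟩
    · intro p hp
      simp only [hPr, Finset.coe_filter, Finset.mem_product, Set.mem_setOf_eq] at hp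
      exact Finset.mem_coe.mpr (Finset.mem_image_of_mem f hp.1.1)
  have h4 : Pr.card ≤ ((D.image (fun x => Function.update x 1 0)) ×ˢ
      (D.image (fun x => Function.update x 2 0))).card := by
    refine Finset.card_le_card_of_injOn
      (fun p => (Function.update p.1 1 0, Function.update p.2 2 0)) ?_ ?_
    · intro p hp
      simp only [hPr, Finset.coe_filter, Finset.mem_product, Set.mem_setOf_eq] at hp
      simp only [Finset.coe_product, Set.mem_prod, Finset.mem_coe]
      exact ⟨Finset.mem_image_of_mem (fun x : Site => Function.update x 1 0) hp.1.1,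
        Finset.mem_image_of_mem (fun x : Site => Function.update x 2 0) hp.1.2⟩
    · rintro ⟨x, x'⟩ hp ⟨y, y'⟩ hq he
      simp only [hPr, Finset.coe_filter, Finset.mem_product, Set.mem_setOf_eq] at hp hq
      simp only [Prod.mk.injEq] at he
      obtain ⟨e1, e2⟩ := he
      have a1 := congrFun hp.2 1
      have a2 := congrFun hp.2 2
      have b1 := congrFun hq.2 1
      have b2 := congrFun hq.2 2
      have c0 := congrFun e1 0
      have c2 := congrFun e1 2
      have d0 := congrFun e2 0
      have d1 := congrFun e2 1
      simp [hf, Function.update] at a1 a2 b1 b2 c0 c2 d0 d1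
      refine Prod.ext ?_ ?_
      · funext i
        fin_cases i
        · exact c0
        · show x 1 = y 1
          rw [a1, d1, b1]
        · exact c2
      · funext i
        fin_cases i
        · exact d0
        · exact d1
        · show x' 2 = y' 2
          rw [← a2, c2, b2]
  rw [Finset.card_product] at h4
  rw [Fin.prod_univ_three]
  rw [h3] at h2
  calc D.card ^ 2 ≤ (D.image f).card * Pr.card := h2
    _ ≤ (D.image f).card * ((D.image (fun x => Function.update x 1 0)).card *
        (D.image (fun x => Function.update x 2 0)).card) := Nat.mul_le_mul_left _ h4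
    _ = _ := by rw [mul_assoc]

end Pool.ISH
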